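import Pool.Agent.Helper45.CF.GoalsB

/-!
# Project CF (MP_d97caa_an): the goal `S_JSU`

Block embeddings induce surjections.
-/

open scoped ComplexOrder ZeroAtInfty Topology ComplexConjugate
open TopologicalSpace Filter

namespace Pool.Agent.Helper83.CF

open Pool.Agent.Helper34.CAR Pool.Agent.Helper39.CR Pool.Agent.Helper45.CF

noncomputable section

/-- The map `b ↦ single i j b` is continuous. -/
theorem continuous_single {I B : Type} [Fintype I] [DecidableEq I] [CStarAlgebra B] (i j : I) :
    Continuous fun b : B => (Mt.single i j b : Mt I B) := by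
  rw [continuous_iff_continuousAt]
  intro a
  rw [ContinuousAt, tendsto_iff_norm_sub_tendsto_zero]
  refine squeeze_zero (fun b => norm_nonneg _) (g := fun b => ‖b - a‖) (fun b => ?_) ?_
  · have h : (Mt.single i j b : Mt I B) - Mt.single i j a = Mt.single i j (b - a) := by
      ext x y
      rw [Mt.sub_apply, Mt.single_apply, Mt.single_apply, Mt.single_apply]
      split_ifs <;> simp
    rw [h]
    exact Mt.norm_single_le i j _
  · have : Continuous fun b : B => ‖b - a‖ := by fun_prop
    simpa using this.tendsto a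

/-- The matrix units of `C(Z, Mt I B)` over `C(Z, B)`. -/
def mu (Z I B : Type) [TopologicalSpace Z] [CompactSpace Z] [Fintype I] [DecidableEq I]
    [CStarAlgebra B] (i j : I) : C(Z, B) →ₗ[ℂ] C(Z, Mt I B) where
  toFun f := ⟨fun z => Mt.single i j (f z), (continuous_single i j).comp f.continuous⟩
  map_add' f g := by
    ext1 z
    change (Mt.single i j (f z + g z) : Mt I B) = Mt.single i j (f z) + Mt.single i j (g z)
    ext x y
    rw [Mt.add_apply, Mt.single_apply, Mt.single_apply, Mt.single_apply]
    split_ifs <;> simp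
  map_smul' c f := by
    ext1 z
    change (Mt.single i j (c • f z) : Mt I B) = c • (Mt.single i j (f z) : Mt I B)
    ext x y
    rw [Mt.smul_apply, Mt.single_apply, Mt.single_apply]
    split_ifs <;> simp

theorem mu_apply {Z I B : Type} [TopologicalSpace Z] [CompactSpace Z] [Fintype I] [DecidableEq I]
    [CStarAlgebra B] (i j : I) (f : C(Z, B)) (z : Z) :
    mu Z I B i j f z = Mt.single i j (f z) := rfl

theorem mu_units (Z I B : Type) [TopologicalSpace Z] [CompactSpace Z] [Fintype I] [DecidableEq I]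
    [CStarAlgebra B] : MUnits (mu Z I B) where
  mul i j k a b := by
    ext1 z
    exact Mt.single_mul_single i j k (a z) (b z)
  mul0 i j k l a b h := by
    ext1 z
    exact Mt.single_mul_single_ne h i l (a z) (b z)
  star i j a := by
    ext1 z
    exact Mt.star_single i j (a z)
  inj i j a h := by
    ext1 z
    have h1 : (Mt.single i j (a z) : Mt I B) = 0 := DFunLike.congr_fun h z
    have h2 : (Mt.single i j (a z) : Mt I B) i j = 0 := by rw [h1]; rfl
    rw [Mt.single_apply, if_pos ⟨rfl, rfl⟩] at h2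
    exact h2
  span x := by
    refine ⟨fun i j => ⟨fun z => x z i j, (continuous_entry i j).comp x.continuous⟩, ?_⟩
    ext1 z
    rw [ContinuousMap.sum_apply]
    conv_lhs => rw [Mt.eq_sum_single (x z)]
    refine Finset.sum_congr rfl fun i _ => ?_
    rw [ContinuousMap.sum_apply]
    rfl

/-- The corner. -/
def cor (Z I B : Type) [TopologicalSpace Z] [CompactSpace Z] [Fintype I] [DecidableEq I]
    [CStarAlgebra B] (i : I) : C(Z, B) →⋆ₙₐ[ℂ] C(Z, Mt I B) where
  toFun f := mu Z I B i i f
  map_smul' c f := map_smul (mu Z I B i i) c f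
  map_zero' := map_zero (mu Z I B i i)
  map_add' f g := map_add (mu Z I B i i) f g
  map_mul' f g := ((mu_units Z I B).mul i i i f g).symm
  map_star' f := ((mu_units Z I B).star i i f).symm

theorem cor_apply {Z I B : Type} [TopologicalSpace Z] [CompactSpace Z] [Fintype I] [DecidableEq I]
    [CStarAlgebra B] (i : I) (f : C(Z, B)) : cor Z I B i f = mu Z I B i i f := rfl

/-- JSU. Block embeddings induce surjections. -/
theorem t : S_JSU := by
  intro T i B S _ _ _ _ p0 p1 hp J hJ
  have hc0 := T.stable i C(Sphere2, B) C(Sphere2, Mt (Fin 2) B) (Fin 2) (mu Sphere2 (Fin 2) B)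
    (mu_units Sphere2 (Fin 2) B) 0 (cor Sphere2 (Fin 2) B 0) (fun a => cor_apply 0 a)
  have hc1 := T.stable i C(Sphere2, B) C(Sphere2, Mt S B) S (mu Sphere2 S B)
    (mu_units Sphere2 S B) p0 (cor Sphere2 S B p0) (fun a => cor_apply p0 a)
  have he : J.comp (cor Sphere2 (Fin 2) B 0) = cor Sphere2 S B p0 := by
    ext1 f
    ext1 y
    change J (cor Sphere2 (Fin 2) B 0 f) y = Mt.single p0 p0 (f y)
    rw [hJ]
    have h00 : (cor Sphere2 (Fin 2) B 0 f) y 0 0 = f y := by
      change (Mt.single 0 0 (f y) : Mt (Fin 2) B) 0 0 = f y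
      rw [Mt.single_apply, if_pos ⟨rfl, rfl⟩]
    have h01 : (cor Sphere2 (Fin 2) B 0 f) y 0 1 = 0 := by
      change (Mt.single 0 0 (f y) : Mt (Fin 2) B) 0 1 = 0
      rw [Mt.single_apply, if_neg (by simp)]
    have h10 : (cor Sphere2 (Fin 2) B 0 f) y 1 0 = 0 := by
      change (Mt.single 0 0 (f y) : Mt (Fin 2) B) 1 0 = 0
      rw [Mt.single_apply, if_neg (by simp)]
    have h11 : (cor Sphere2 (Fin 2) B 0 f) y 1 1 = 0 := by
      change (Mt.single 0 0 (f y) : Mt (Fin 2) B) 1 1 = 0
      rw [Mt.single_apply, if_neg (by simp)]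
    have h0 : ∀ p q : S, (Mt.single p q (0 : B) : Mt S B) = 0 := by
      intro p q
      ext x y
      rw [Mt.single_apply, Mt.zero_apply, ite_self]
    rw [h00, h01, h10, h11, h0, h0, h0, add_zero, add_zero, add_zero]
  intro x
  obtain ⟨y, hy⟩ := hc1.2 (T.map i (cor Sphere2 (Fin 2) B 0) x)
  refine ⟨y, hc0.1 ?_⟩
  rw [← T.map_comp, he, hy]

end

end Pool.Agent.Helper83.CF
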