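import Pool.Agent.Helper55.CF.Goals

/-!
Packet LINK of MP_b612a6_ag: Fourier form of the second quantity in `GoodOn`.
-/

open MeasureTheory Complex
open scoped ContDiff ComplexConjugate

noncomputable section
namespace Pool.Agent.Helper83.CF

open CF55

theorem gauss_int (hG : G_GAUSS) (c : ℝ) (hc : 0 < c) :
    Integrable (fun x : ℂ => Real.exp (-(c * ‖x‖ ^ 2))) := by
  have h := (hG 0 0 c hc).1.norm
  refine h.congr (Filter.Eventually.of_forall ?_)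
  intro x
  show ‖cexp (I * ((0 * x ^ 2 + 2 * 0 * x).re : ℂ) - c * ‖x‖ ^ 2)‖ = Real.exp (-(c * ‖x‖ ^ 2))
  rw [Complex.norm_exp]
  congr 1
  have : (I * (((0 : ℂ) * x ^ 2 + 2 * 0 * x).re : ℂ) - c * ‖x‖ ^ 2) =
      ((-(c * ‖x‖ ^ 2) : ℝ) : ℂ) := by
    push_cast
    simp
  rw [this, Complex.ofReal_re]

theorem gauss2_int (hG : G_GAUSS) (c : ℝ) (hc : 0 < c) :
    Integrable (fun x : ℂ => ‖x‖ ^ 2 * Real.exp (-(c * ‖x‖ ^ 2))) := by
  refine Integrable.mono' ((gauss_int hG (c / 2) (by positivity)).const_mul (2 / c)) ?_ ?_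
  · apply Continuous.aestronglyMeasurable
    fun_prop
  · apply Filter.Eventually.of_forall
    intro x
    rw [Real.norm_eq_abs, abs_of_nonneg (by positivity)]
    have h1 : c / 2 * ‖x‖ ^ 2 ≤ Real.exp (c / 2 * ‖x‖ ^ 2) := by
      have := Real.add_one_le_exp (c / 2 * ‖x‖ ^ 2)
      linarith
    have h2 : ‖x‖ ^ 2 ≤ 2 / c * Real.exp (c / 2 * ‖x‖ ^ 2) := by
      rw [div_mul_eq_mul_div, le_div_iff₀ hc]
      nlinarith
    calc ‖x‖ ^ 2 * Real.exp (-(c * ‖x‖ ^ 2))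
        ≤ 2 / c * Real.exp (c / 2 * ‖x‖ ^ 2) * Real.exp (-(c * ‖x‖ ^ 2)) :=
          mul_le_mul_of_nonneg_right h2 (Real.exp_pos _).le
      _ = 2 / c * Real.exp (-(c / 2 * ‖x‖ ^ 2)) := by
          rw [mul_assoc, ← Real.exp_add]
          congr 2
          ring

theorem int1 (hG : G_GAUSS) (t : ℂ) (l : ℝ) (hl : 0 < l) :
    Integrable (fun x : ℂ => cexp (I * ((x * t).re : ℂ) - l * ‖x‖ ^ 2)) ∧
    ∫ x : ℂ, cexp (I * ((x * t).re : ℂ) - l * ‖x‖ ^ 2) =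
      ((Real.pi / l * Real.exp (-(‖t‖ ^ 2 / (4 * l))) : ℝ) : ℂ) := by
  obtain ⟨h1, h2⟩ := hG 0 (t / 2) l hl
  have e1 : ∀ x : ℂ, (0 * x ^ 2 + 2 * (t / 2) * x) = x * t := by
    intro x
    ring
  simp only [e1] at h1 h2
  refine ⟨h1, ?_⟩
  rw [h2]
  have e2 : Real.sqrt (l ^ 2 + ‖(0 : ℂ)‖ ^ 2) = l := by
    rw [norm_zero]
    simp [Real.sqrt_sq hl.le]
  rw [e2]
  have e3 : -(((l * ‖t / 2‖ ^ 2 : ℝ) : ℂ) + I * (((conj (0 : ℂ)) * (t / 2) ^ 2).re : ℂ)) /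
      ((l ^ 2 + ‖(0 : ℂ)‖ ^ 2 : ℝ) : ℂ) = ((-(‖t‖ ^ 2 / (4 * l)) : ℝ) : ℂ) := by
    have e4 : ‖t / 2‖ = ‖t‖ / 2 := by
      rw [norm_div]
      simp
    rw [e4]
    push_cast
    simp only [map_zero, zero_mul, Complex.zero_re, Complex.ofReal_zero, mul_zero, add_zero,
      norm_zero]
    have : (l : ℂ) ≠ 0 := by exact_mod_cast hl.ne'
    field_simp
    ring
  rw [e3]
  push_cast
  rfl

theorem int2 (hG : G_GAUSS) (t : ℂ) (l : ℝ) (hl : 0 < l) :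
    ∫ x : ℂ, ((‖x‖ ^ 2 : ℝ) : ℂ) * cexp (I * ((x * t).re : ℂ) - l * ‖x‖ ^ 2) =
      ((Real.pi / l ^ 2 * (1 - ‖t‖ ^ 2 / (4 * l)) * Real.exp (-(‖t‖ ^ 2 / (4 * l))) : ℝ) : ℂ) := by
  let F : ℝ → ℂ → ℂ := fun m x => cexp (I * ((x * t).re : ℂ) - m * ‖x‖ ^ 2)
  let F' : ℝ → ℂ → ℂ := fun m x => -(((‖x‖ ^ 2 : ℝ) : ℂ) *
    cexp (I * ((x * t).re : ℂ) - m * ‖x‖ ^ 2))
  have hs : Set.Ioi (l / 2) ∈ nhds l := Ioi_mem_nhds (by linarith)
  have hnorm : ∀ (m : ℝ) (x : ℂ), ‖cexp (I * ((x * t).re : ℂ) - m * ‖x‖ ^ 2)‖ =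
      Real.exp (-(m * ‖x‖ ^ 2)) := by
    intro m x
    rw [Complex.norm_exp]
    congr 1
    have h1 : (I * ((x * t).re : ℂ) - m * ‖x‖ ^ 2) =
        ((-(m * ‖x‖ ^ 2) : ℝ) : ℂ) + I * ((x * t).re : ℂ) := by
      push_cast
      ring
    rw [h1, Complex.add_re, Complex.ofReal_re, Complex.mul_re]
    simp
  have key := hasDerivAt_integral_of_dominated_loc_of_deriv_le (μ := (volume : Measure ℂ))
    (F := F) (F' := F') (x₀ := l) (s := Set.Ioi (l / 2))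
    (bound := fun x : ℂ => ‖x‖ ^ 2 * Real.exp (-(l / 2 * ‖x‖ ^ 2))) hs
    (by
      apply Filter.Eventually.of_forall
      intro m
      apply Continuous.aestronglyMeasurable
      show Continuous (fun x : ℂ => cexp (I * ((x * t).re : ℂ) - m * ‖x‖ ^ 2))
      fun_prop)
    (int1 hG t l hl).1
    (by
      apply Continuous.aestronglyMeasurable
      show Continuous (fun x : ℂ => -(((‖x‖ ^ 2 : ℝ) : ℂ) *
        cexp (I * ((x * t).re : ℂ) - l * ‖x‖ ^ 2)))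
      fun_prop)
    (by
      apply Filter.Eventually.of_forall
      intro x m hm
      show ‖-(((‖x‖ ^ 2 : ℝ) : ℂ) * cexp (I * ((x * t).re : ℂ) - m * ‖x‖ ^ 2))‖ ≤ _
      rw [norm_neg, norm_mul, hnorm, Complex.norm_real, Real.norm_eq_abs,
        abs_of_nonneg (by positivity)]
      apply mul_le_mul_of_nonneg_left _ (by positivity)
      apply Real.exp_le_exp.mpr
      have hm' : l / 2 < m := hm
      have : 0 ≤ ‖x‖ ^ 2 := by positivity
      nlinarith)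
    (gauss2_int hG (l / 2) (by positivity))
    (by
      apply Filter.Eventually.of_forall
      intro x m _
      show HasDerivAt (fun m : ℝ => cexp (I * ((x * t).re : ℂ) - m * ‖x‖ ^ 2))
        (-(((‖x‖ ^ 2 : ℝ) : ℂ) * cexp (I * ((x * t).re : ℂ) - m * ‖x‖ ^ 2))) m
      have h1 : HasDerivAt (fun m : ℝ => (m : ℂ)) 1 m := Complex.ofRealCLM.hasDerivAt
      have h2 : HasDerivAt (fun m : ℝ => I * ((x * t).re : ℂ) - (m : ℂ) * (‖x‖ : ℂ) ^ 2)
          (-(1 * (‖x‖ : ℂ) ^ 2)) m := (h1.mul_const _).const_sub _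
      have h3 := h2.cexp
      convert h3 using 1
      push_cast
      ring)
  have hd1 := key.2
  -- explicit formula
  have hd2 : HasDerivAt (fun m : ℝ => ((Real.pi / m * Real.exp (-(‖t‖ ^ 2 / (4 * m))) : ℝ) : ℂ))
      ((-(Real.pi / l ^ 2) * Real.exp (-(‖t‖ ^ 2 / (4 * l))) +
        Real.pi / l * (Real.exp (-(‖t‖ ^ 2 / (4 * l))) * (‖t‖ ^ 2 / (4 * l ^ 2))) : ℝ) : ℂ) l := by
    have h1 : HasDerivAt (fun m : ℝ => Real.pi / m) (-(Real.pi / l ^ 2)) l := by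
      have h2 := (hasDerivAt_inv hl.ne').const_mul Real.pi
      have h3 : (fun m : ℝ => Real.pi / m) = fun m => Real.pi * m⁻¹ := by
        funext m
        rw [div_eq_mul_inv]
      rw [h3]
      exact h2.congr_deriv (by ring)
    have h2 : HasDerivAt (fun m : ℝ => -(‖t‖ ^ 2 / (4 * m))) (‖t‖ ^ 2 / (4 * l ^ 2)) l := by
      have h3 := (hasDerivAt_inv hl.ne').const_mul (-(‖t‖ ^ 2 / 4))
      have h4 : (fun m : ℝ => -(‖t‖ ^ 2 / (4 * m))) = fun m => -(‖t‖ ^ 2 / 4) * m⁻¹ := by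
        funext m
        rw [← div_div, div_eq_mul_inv (‖t‖ ^ 2 / 4) m]
        ring
      rw [h4]
      exact h3.congr_deriv (by field_simp)
    exact (h1.mul h2.exp).ofReal_comp
  have heq : (fun m : ℝ => ∫ x, F m x) =ᶠ[nhds l]
      (fun m : ℝ => ((Real.pi / m * Real.exp (-(‖t‖ ^ 2 / (4 * m))) : ℝ) : ℂ)) := by
    filter_upwards [hs] with m hm
    have hm0 : 0 < m := by
      have : l / 2 < m := hm
      linarith
    exact (int1 hG t m hm0).2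
  have hd3 := hd2.congr_of_eventuallyEq heq
  have h5 := hd1.unique hd3
  have h6 : ∫ x : ℂ, F' l x = -∫ x : ℂ, ((‖x‖ ^ 2 : ℝ) : ℂ) *
      cexp (I * ((x * t).re : ℂ) - l * ‖x‖ ^ 2) := by
    rw [← integral_neg]
  rw [h6] at h5
  have h7 := neg_eq_iff_eq_neg.mp h5
  rw [h7, ← Complex.ofReal_neg]
  congr 1
  field_simp
  ring

theorem stmtLINK (hG : G_GAUSS) : G_LINK := by
  intro f ψ hf hψ hsupp R hR
  have hl : 0 < 1 / (4 * R) := by positivity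
  have hexp : ∀ σ : ℂ, Real.exp (-‖σ‖ ^ 2 / (4 * R)) = Real.exp (-(1 / (4 * R) * ‖σ‖ ^ 2)) := by
    intro σ
    congr 1
    field_simp
  have hcomb : ∀ (σ : ℂ) (x : E), ((‖σ‖ ^ 2 * Real.exp (-‖σ‖ ^ 2 / (4 * R)) : ℝ) : ℂ) *
      (cexp (I * ((σ * f x).re : ℂ)) * ψ x) =
      (((‖σ‖ ^ 2 : ℝ) : ℂ) * cexp (I * ((σ * f x).re : ℂ) - (1 / (4 * R) : ℝ) * ‖σ‖ ^ 2)) *
        (ψ x : ℂ) := by
    intro σ x
    rw [hexp, Complex.exp_sub]
    push_cast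
    rw [Complex.exp_neg]
    ring
  have hjoint : Integrable (fun z : ℂ × E =>
      (((‖z.1‖ ^ 2 : ℝ) : ℂ) *
        cexp (I * ((z.1 * f z.2).re : ℂ) - (1 / (4 * R) : ℝ) * ‖z.1‖ ^ 2)) * (ψ z.2 : ℂ))
      ((volume : Measure ℂ).prod (volume : Measure E)) := by
    have hψi : Integrable ψ (volume : Measure E) := hψ.integrable_of_hasCompactSupport hsupp
    have hb := (gauss2_int hG (1 / (4 * R)) hl).mul_prod hψi.norm
    refine Integrable.mono' hb ?_ ?_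
    · apply Continuous.aestronglyMeasurable
      have h1 : Continuous (fun z : ℂ × E => f z.2) := hf.comp continuous_snd
      have h2 : Continuous (fun z : ℂ × E => ψ z.2) := hψ.comp continuous_snd
      fun_prop
    · apply Filter.Eventually.of_forall
      intro z
      rw [norm_mul, norm_mul, Complex.norm_real, Complex.norm_real, Complex.norm_exp,
        Real.norm_eq_abs, abs_of_nonneg (by positivity)]
      have h1 : (I * ((z.1 * f z.2).re : ℂ) - (1 / (4 * R) : ℝ) * (‖z.1‖ : ℂ) ^ 2).re =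
          -(1 / (4 * R) * ‖z.1‖ ^ 2) := by
        have h2 : (I * ((z.1 * f z.2).re : ℂ) - (1 / (4 * R) : ℝ) * (‖z.1‖ : ℂ) ^ 2) =
          ((-(1 / (4 * R) * ‖z.1‖ ^ 2) : ℝ) : ℂ) + I * ((z.1 * f z.2).re : ℂ) := by
          push_cast
          ring
        rw [h2, Complex.add_re, Complex.ofReal_re, Complex.mul_re]
        simp
      rw [h1]
  have hL : ∀ σ : ℂ, ((‖σ‖ ^ 2 * Real.exp (-‖σ‖ ^ 2 / (4 * R)) : ℝ) : ℂ) *
      ∫ x, cexp (I * ((σ * f x).re : ℂ)) * ψ x =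
      ∫ x, (((‖σ‖ ^ 2 : ℝ) : ℂ) *
        cexp (I * ((σ * f x).re : ℂ) - (1 / (4 * R) : ℝ) * ‖σ‖ ^ 2)) * (ψ x : ℂ) := by
    intro σ
    rw [← integral_const_mul]
    apply integral_congr_ae
    exact Filter.Eventually.of_forall (hcomb σ)
  rw [integral_congr_ae (Filter.Eventually.of_forall hL)]
  have hsw := integral_integral_swap (f := fun (σ : ℂ) (x : E) =>
    (((‖σ‖ ^ 2 : ℝ) : ℂ) *
        cexp (I * ((σ * f x).re : ℂ) - (1 / (4 * R) : ℝ) * ‖σ‖ ^ 2)) * (ψ x : ℂ)) hjoint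
  rw [hsw]
  have hin : ∀ x : E, (∫ σ : ℂ, (((‖σ‖ ^ 2 : ℝ) : ℂ) *
        cexp (I * ((σ * f x).re : ℂ) - (1 / (4 * R) : ℝ) * ‖σ‖ ^ 2)) * (ψ x : ℂ)) =
      ((-(16 * Real.pi * R ^ 2) *
        ((R * ‖f x‖ ^ 2 - 1) * Real.exp (-(R * ‖f x‖ ^ 2)) * ψ x) : ℝ) : ℂ) := by
    intro x
    rw [integral_mul_const, int2 hG (f x) (1 / (4 * R)) hl, ← Complex.ofReal_mul]
    congr 1
    have e1 : ‖f x‖ ^ 2 / (4 * (1 / (4 * R))) = R * ‖f x‖ ^ 2 := by
      field_simp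
    rw [e1]
    field_simp
    ring
  rw [integral_congr_ae (Filter.Eventually.of_forall hin)]
  rw [integral_complex_ofReal, integral_const_mul]

end Pool.Agent.Helper83.CF
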