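import Pool.Agent.Helper55.CF.Goals

/-!
Packet N1a of MP_b612a6_ag: stationary phase for `y ^ 2` with an unspecified constant.
-/

open MeasureTheory Complex
open scoped ContDiff ComplexConjugate

noncomputable section
namespace Pool.Agent.Helper83.CF

open CF55

/-- scaling -/
theorem scale_int (χ : ℂ → ℝ) (t l : ℝ) (hl : 0 < l) :
    ∫ y : ℂ, cexp (I * ((((t * l ^ 2 : ℝ) : ℂ) * y ^ 2).re : ℂ)) * (χ (l • y) : ℂ) =
      ((l ^ 2)⁻¹ : ℝ) * ∫ y : ℂ, cexp (I * (((t : ℂ) * y ^ 2).re : ℂ)) * (χ y : ℂ) := by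
  have h := MeasureTheory.Measure.integral_comp_smul (volume : Measure ℂ)
    (fun y : ℂ => cexp (I * (((t : ℂ) * y ^ 2).re : ℂ)) * (χ y : ℂ)) l
  have h2 : ∀ y : ℂ, cexp (I * ((((t * l ^ 2 : ℝ) : ℂ) * y ^ 2).re : ℂ)) * (χ (l • y) : ℂ) =
      cexp (I * (((t : ℂ) * (l • y) ^ 2).re : ℂ)) * (χ (l • y) : ℂ) := by
    intro y
    have h3 : (((t * l ^ 2 : ℝ) : ℂ) * y ^ 2) = (t : ℂ) * (l • y) ^ 2 := by
      rw [Complex.real_smul]
      push_cast
      ring
    rw [h3]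
  rw [integral_congr_ae (Filter.Eventually.of_forall h2), h, Complex.finrank_real_complex,
    abs_of_pos (by positivity), Complex.real_smul]

/-- rotation -/
theorem rot_int (χ : ℂ → ℝ) (hχ : ∀ y, χ y = χ (‖y‖ : ℂ)) (σ : ℂ) (hσ : σ ≠ 0) :
    ∫ y : ℂ, cexp (I * ((σ * y ^ 2).re : ℂ)) * (χ y : ℂ) =
      ∫ y : ℂ, cexp (I * ((((‖σ‖ : ℝ) : ℂ) * y ^ 2).re : ℂ)) * (χ y : ℂ) := by
  have hn : (‖σ‖ : ℂ) ≠ 0 := by exact_mod_cast norm_ne_zero_iff.mpr hσ
  obtain ⟨w, hw⟩ := IsAlgClosed.exists_pow_nat_eq (σ / (‖σ‖ : ℂ)) (n := 2) (by norm_num)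
  have hw1 : ‖w‖ = 1 := by
    have h1 : ‖w‖ ^ 2 = 1 := by
      rw [← norm_pow, hw, norm_div, Complex.norm_real, norm_norm, div_self]
      exact norm_ne_zero_iff.mpr hσ
    have h2 : 0 ≤ ‖w‖ := norm_nonneg w
    nlinarith
  let a : Circle := ⟨w, by rw [Submonoid.unitSphere, ← SetLike.mem_coe]; simp [hw1]⟩
  have hmp : MeasurePreserving (rotation a) (volume : Measure ℂ) volume :=
    (rotation a).measurePreserving
  have h := hmp.integral_comp (rotation a).toHomeomorph.measurableEmbedding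
    (fun y : ℂ => cexp (I * ((((‖σ‖ : ℝ) : ℂ) * y ^ 2).re : ℂ)) * (χ y : ℂ))
  rw [← h]
  apply integral_congr_ae
  apply Filter.Eventually.of_forall
  intro y
  have h1 : rotation a y = w * y := rotation_apply a y
  show cexp (I * ((σ * y ^ 2).re : ℂ)) * (χ y : ℂ) =
    cexp (I * ((((‖σ‖ : ℝ) : ℂ) * (rotation a y) ^ 2).re : ℂ)) * (χ (rotation a y) : ℂ)
  rw [h1, hχ (w * y), norm_mul, hw1, one_mul, ← hχ y, mul_pow, hw]
  have h2 : (‖σ‖ : ℂ) * (σ / (‖σ‖ : ℂ) * y ^ 2) = σ * y ^ 2 := by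
    field_simp
  rw [h2]

theorem stmtN1a (hN : G_NSP) : G_N1a := by
  intro χ hχ hsupp hrad h1
  -- radii
  obtain ⟨r, hr, hr1⟩ := Metric.eventually_nhds_iff_ball.mp h1
  obtain ⟨R, hR⟩ := hsupp.isCompact.isBounded.subset_closedBall (0 : ℂ)
  have hRz : ∀ y : ℂ, |R| < ‖y‖ → χ y = 0 := by
    intro y hy
    by_contra hne
    have h2 : y ∈ tsupport χ := subset_tsupport χ hne
    have h3 := hR h2
    rw [mem_closedBall_zero_iff] at h3
    exact absurd (h3.trans (le_abs_self R)) (not_le.mpr hy)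
  -- the family
  let lam : ℝ → ℝ := fun p => 1 + Real.sin p / 2
  have hlam1 : ∀ p, 1 / 2 ≤ lam p := by
    intro p
    have := Real.neg_one_le_sin p
    show 1 / 2 ≤ 1 + Real.sin p / 2
    linarith
  have hlam2 : ∀ p, lam p ≤ 3 / 2 := by
    intro p
    have := Real.sin_le_one p
    show 1 + Real.sin p / 2 ≤ 3 / 2
    linarith
  let G : ℂ × ℝ → ℂ := fun q => q.1 ^ 2
  let φ : ℂ × ℝ → ℂ := fun q => ((χ q.1 - χ (lam q.2 • q.1) : ℝ) : ℂ)
  let K : Set ℂ := Metric.closedBall 0 (2 * |R|) ∩ {ζ | r / 2 ≤ ‖ζ‖}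
  have hGs : ContDiff ℝ ∞ G := contDiff_fst.pow 2
  have hlams : ContDiff ℝ ∞ (fun q : ℂ × ℝ => lam q.2) := by
    have : ContDiff ℝ ∞ lam := contDiff_const.add (Real.contDiff_sin.div_const 2)
    exact this.comp contDiff_snd
  have hφs : ContDiff ℝ ∞ φ := by
    have h2 : ContDiff ℝ ∞ (fun q : ℂ × ℝ => χ q.1 - χ (lam q.2 • q.1)) :=
      (hχ.comp contDiff_fst).sub (hχ.comp (hlams.smul contDiff_fst))
    exact Complex.ofRealCLM.contDiff.comp h2
  have hK : IsCompact K := by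
    apply (isCompact_closedBall (0 : ℂ) (2 * |R|)).inter_right
    exact isClosed_le continuous_const continuous_norm
  obtain ⟨C, hC⟩ := hN ℝ G φ hGs hφs (fun p => by
    show Differentiable ℂ (fun ζ : ℂ => ζ ^ 2)
    exact differentiable_id.pow 2) K (Set.Icc (-(Real.pi / 2)) 0) hK isCompact_Icc
    (by
      intro ζ p hζ
      show ((χ ζ - χ (lam p • ζ) : ℝ) : ℂ) = 0
      have h2 : 2 * |R| < ‖ζ‖ ∨ ‖ζ‖ < r / 2 := by
        by_contra hcon
        push Not at hcon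
        exact hζ ⟨by rw [mem_closedBall_zero_iff]; exact hcon.1, hcon.2⟩
      have hpos : 0 < lam p := by
        have := hlam1 p
        linarith
      have hnorm : ‖lam p • ζ‖ = lam p * ‖ζ‖ := by
        rw [norm_smul, Real.norm_eq_abs, abs_of_pos hpos]
      have h0 : 0 ≤ |R| := abs_nonneg R
      have hζ0 : 0 ≤ ‖ζ‖ := norm_nonneg ζ
      rcases h2 with h2 | h2
      · have e1 : χ ζ = 0 := hRz ζ (by linarith)
        have e2 : χ (lam p • ζ) = 0 := by
          apply hRz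
          rw [hnorm]
          have := hlam1 p
          nlinarith
        rw [e1, e2]
        simp
      · have e1 : χ ζ = 1 := by
          apply hr1
          rw [mem_ball_zero_iff]
          linarith
        have e2 : χ (lam p • ζ) = 1 := by
          apply hr1
          rw [mem_ball_zero_iff, hnorm]
          have := hlam2 p
          nlinarith
        rw [e1, e2]
        simp)
    (by
      intro ζ hζ p _
      show deriv (fun ζ : ℂ => ζ ^ 2) ζ ≠ 0
      have h2 : r / 2 ≤ ‖ζ‖ := hζ.2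
      have h3 : ζ ≠ 0 := by
        rw [← norm_pos_iff]
        linarith
      simp [h3])
  -- the function A
  let A : ℝ → ℂ := fun s => ∫ y : ℂ, cexp (I * (((s : ℂ) * y ^ 2).re : ℂ)) * (χ y : ℂ)
  let F : ℝ → ℂ := fun s => (s : ℂ) * A s
  have hint : ∀ (s l : ℝ), 0 < l →
      Integrable (fun y : ℂ => cexp (I * (((s : ℂ) * y ^ 2).re : ℂ)) * (χ (l • y) : ℂ)) := by
    intro s l hl
    apply Continuous.integrable_of_hasCompactSupport
    · have hχc : Continuous χ := hχ.continuous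
      fun_prop
    · apply HasCompactSupport.mul_left
      have h2 : HasCompactSupport (fun y : ℂ => χ (l • y)) :=
        hsupp.comp_homeomorph (Homeomorph.smulOfNeZero l hl.ne')
      exact h2.comp_left (g := fun x : ℝ => (x : ℂ)) Complex.ofReal_zero
  have hdiff : ∀ s t : ℝ, 0 < s → s ≤ t → t ≤ 4 * s → ‖F s - F t‖ ≤ s * (C / (1 + s) ^ 4) := by
    intro s t hs hst hts
    have ht : 0 < t := lt_of_lt_of_le hs hst
    let l : ℝ := Real.sqrt (s / t)
    have hl : 0 < l := Real.sqrt_pos.mpr (div_pos hs ht)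
    have hl2 : l ^ 2 = s / t := Real.sq_sqrt (div_pos hs ht).le
    have hl1 : l ≤ 1 := by
      rw [Real.sqrt_le_one]
      exact (div_le_one ht).mpr hst
    have hlh : 1 / 2 ≤ l := by
      apply Real.le_sqrt_of_sq_le
      rw [le_div_iff₀ ht]
      linarith
    have htl : t * l ^ 2 = s := by
      rw [hl2]
      field_simp
    -- the parameter
    have hp : ∃ p ∈ Set.Icc (-(Real.pi / 2)) 0, lam p = l := by
      refine ⟨Real.arcsin (2 * (l - 1)), ⟨Real.neg_pi_div_two_le_arcsin _, ?_⟩, ?_⟩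
      · rw [Real.arcsin_nonpos]
        linarith
      · show 1 + Real.sin (Real.arcsin (2 * (l - 1))) / 2 = l
        rw [Real.sin_arcsin (by linarith) (by linarith)]
        ring
    obtain ⟨p, hp, hpl⟩ := hp
    have hFt : F t = (s : ℂ) * ∫ y : ℂ, cexp (I * (((s : ℂ) * y ^ 2).re : ℂ)) *
        (χ (l • y) : ℂ) := by
      have h2 := scale_int χ t l hl
      rw [htl] at h2
      rw [h2]
      show (t : ℂ) * A t = (s : ℂ) * (((l ^ 2)⁻¹ : ℝ) * A t)
      rw [← mul_assoc]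
      congr 1
      rw [← htl]
      push_cast
      have : (l : ℂ) ≠ 0 := by exact_mod_cast hl.ne'
      field_simp
    have hFs : F s = (s : ℂ) * ∫ y : ℂ, cexp (I * (((s : ℂ) * y ^ 2).re : ℂ)) *
        (χ y : ℂ) := rfl
    have hsub : F s - F t = (s : ℂ) * ∫ ζ : ℂ, cexp (I * (((s : ℂ) * G (ζ, p)).re : ℂ)) *
        φ (ζ, p) := by
      rw [hFt, hFs, ← mul_sub, ← integral_sub]
      · congr 1
        apply integral_congr_ae
        apply Filter.Eventually.of_forall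
        intro y
        show cexp (I * (((s : ℂ) * y ^ 2).re : ℂ)) * (χ y : ℂ) -
          cexp (I * (((s : ℂ) * y ^ 2).re : ℂ)) * (χ (l • y) : ℂ) =
          cexp (I * (((s : ℂ) * y ^ 2).re : ℂ)) * ((χ y - χ (lam p • y) : ℝ) : ℂ)
        rw [hpl]
        push_cast
        ring
      · have := hint s 1 one_pos
        simpa using this
      · exact hint s l hl
    rw [hsub, norm_mul, Complex.norm_real, Real.norm_eq_abs, abs_of_pos hs]
    apply mul_le_mul_of_nonneg_left _ hs.le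
    have h3 := hC p hp (s : ℂ)
    rw [Complex.norm_real, Real.norm_eq_abs, abs_of_pos hs] at h3
    exact h3
  have hC0 : 0 ≤ C := by
    have h3 := hC 0 ⟨by linarith [Real.pi_pos], le_rfl⟩ 0
    rw [norm_zero] at h3
    have h4 := (norm_nonneg _).trans h3
    simpa using h4
  have hdiff2 : ∀ s t : ℝ, 0 < s → s ≤ t → t ≤ 4 * s → ‖F s - F t‖ ≤ C / s ^ 3 := by
    intro s t hs hst hts
    refine (hdiff s t hs hst hts).trans ?_
    rw [mul_div_assoc', div_le_div_iff₀ (by positivity) (by positivity)]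
    have h3 : s ^ 4 ≤ (1 + s) ^ 4 := pow_le_pow_left₀ hs.le (by linarith) 4
    calc s * C * s ^ 3 = C * s ^ 4 := by ring
      _ ≤ C * (1 + s) ^ 4 := mul_le_mul_of_nonneg_left h3 hC0
  -- the limit
  have hgeo : ∀ n : ℕ, dist (F (2 ^ n)) (F (2 ^ (n + 1))) ≤ C * (1 / 8) ^ n := by
    intro n
    rw [dist_eq_norm]
    have h2 := hdiff2 (2 ^ n) (2 ^ (n + 1)) (by positivity)
      (by rw [pow_succ]; nlinarith [pow_pos (show (0 : ℝ) < 2 by norm_num) n])
      (by rw [pow_succ]; nlinarith [pow_pos (show (0 : ℝ) < 2 by norm_num) n])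
    refine h2.trans (le_of_eq ?_)
    rw [one_div, inv_pow, div_eq_mul_inv, ← pow_mul, mul_comm n 3, pow_mul]
    norm_num
  have hcau : CauchySeq (fun n : ℕ => F (2 ^ n)) :=
    cauchySeq_of_le_geometric (1 / 8) C (by norm_num) hgeo
  obtain ⟨c, hc⟩ := cauchySeq_tendsto_of_complete hcau
  have hcd : ∀ n : ℕ, ‖F (2 ^ n) - c‖ ≤ C * (1 / 8) ^ n / (1 - 1 / 8) := by
    intro n
    rw [← dist_eq_norm]
    exact dist_le_of_le_geometric_of_tendsto (1 / 8) C (by norm_num) hgeo hc n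
  have hFc : ∀ s : ℝ, 1 ≤ s → ‖F s - c‖ ≤ (3 * C) / s ^ 3 := by
    intro s hs
    have hs0 : 0 < s := by linarith
    obtain ⟨n, hn1, hn2⟩ := exists_nat_pow_near hs (show (1 : ℝ) < 2 by norm_num)
    have h2 := hdiff2 s (2 ^ (n + 1)) hs0 hn2.le (by
      rw [pow_succ]
      linarith)
    have h3 := hcd (n + 1)
    have h4 : C * (1 / 8) ^ (n + 1) / (1 - 1 / 8) ≤ 2 * C / s ^ 3 := by
      have e1 : (1 / 8 : ℝ) ^ (n + 1) = 1 / ((2 : ℝ) ^ (n + 1)) ^ 3 := by
        rw [one_div, inv_pow, one_div, ← pow_mul, mul_comm (n + 1) 3, pow_mul]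
        norm_num
      have e2 : (1 / 8 : ℝ) ^ (n + 1) ≤ 1 / s ^ 3 := by
        rw [e1]
        apply one_div_le_one_div_of_le (by positivity)
        exact pow_le_pow_left₀ hs0.le hn2.le 3
      have e3 : 0 ≤ 1 / s ^ 3 := by positivity
      have e4 : C * (1 / 8) ^ (n + 1) ≤ C * (1 / s ^ 3) := mul_le_mul_of_nonneg_left e2 hC0
      have e5 : 2 * C / s ^ 3 = 2 * (C * (1 / s ^ 3)) := by ring
      rw [e5]
      have e6 : 0 ≤ C * (1 / s ^ 3) := mul_nonneg hC0 e3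
      rw [div_le_iff₀ (by norm_num)]
      linarith
    calc ‖F s - c‖ = ‖(F s - F (2 ^ (n + 1))) + (F (2 ^ (n + 1)) - c)‖ := by congr 1; ring
      _ ≤ ‖F s - F (2 ^ (n + 1))‖ + ‖F (2 ^ (n + 1)) - c‖ := norm_add_le _ _
      _ ≤ C / s ^ 3 + 2 * C / s ^ 3 := add_le_add h2 (h3.trans h4)
      _ = (3 * C) / s ^ 3 := by ring
  refine ⟨c, 3 * C, ?_⟩
  intro σ hσ
  have hσ0 : 0 < ‖σ‖ := by linarith
  rw [rot_int χ hrad σ (norm_pos_iff.mp hσ0)]
  have hne : (‖σ‖ : ℂ) ≠ 0 := by exact_mod_cast hσ0.ne'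
  have h5 : (∫ y : ℂ, cexp (I * ((((‖σ‖ : ℝ) : ℂ) * y ^ 2).re : ℂ)) * (χ y : ℂ)) - c / ‖σ‖ =
      (F ‖σ‖ - c) / (‖σ‖ : ℂ) := by
    show A ‖σ‖ - c / ‖σ‖ = ((‖σ‖ : ℂ) * A ‖σ‖ - c) / (‖σ‖ : ℂ)
    field_simp
  rw [h5, norm_div, Complex.norm_real, norm_norm]
  calc ‖F ‖σ‖ - c‖ / ‖σ‖ ≤ (3 * C) / ‖σ‖ ^ 3 / ‖σ‖ := by
        apply div_le_div_of_nonneg_right (hFc ‖σ‖ hσ) hσ0.le
    _ = 3 * C / ‖σ‖ ^ 4 := by
        rw [div_div]
        congr 1

end Pool.Agent.Helper83.CF
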